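import Pool.Agent.H21.AxialDefs

namespace Pool.Agent.Results.MP_89b943_al.Block

open Pool.Agent.H21.Axial Module.End

def block {F V : Type*} [Field F] [AddCommGroup V] [Module F V] (m : V →ₗ[F] V →ₗ[F] V) (a : V) :
    Submodule F V := sInf {U | IsIdeal m U ∧ a ∈ U}

def Decomposable {F V : Type*} [Field F] [AddCommGroup V] [Module F V] (m : V →ₗ[F] V →ₗ[F] V)
    (I : Submodule F V) : Prop :=
  sSup {J | J < I ∧ ∀ u ∈ J, ∀ v ∈ I, m u v ∈ J ∧ m v u ∈ J} = I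

abbrev W := ℚ × ℚ × ℚ × ℚ

def mw (x y : W) : W :=
  (x.1 * y.1, x.2.1 * y.2.1,
   x.1 * y.2.1 + y.1 * x.2.1 + 2 * (x.1 + x.2.1) * y.2.2.1 + 2 * (y.1 + y.2.1) * x.2.2.1,
   x.2.1 * y.2.2.1 + y.2.1 * x.2.2.1 + 3 * x.2.1 * y.2.2.2 + 3 * y.2.1 * x.2.2.2)

def mW : W →ₗ[ℚ] W →ₗ[ℚ] W := LinearMap.mk₂ ℚ mw
  (fun x y z => by simp [mw]; (repeat' constructor) <;> ring)
  (fun c x z => by simp [mw]; (repeat' constructor) <;> ring)
  (fun x y z => by simp [mw]; (repeat' constructor) <;> ring)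
  (fun c x z => by simp [mw]; (repeat' constructor) <;> ring)

lemma mW_apply (x y : W) : mW x y = mw x y := rfl

lemma key (a x : W) (n : ℚ) (hn : n ∈ ({1, 0, 2, 3} : Set ℚ)) (hx : mw a x = n • x) :
    x ∈ ⨆ n ∈ ({1, 0, 2, 3} : Set ℚ), eigenspace (mW a) n :=
  (le_iSup₂_of_le (f := fun n (_ : n ∈ ({1, 0, 2, 3} : Set ℚ)) => eigenspace (mW a) n)
      n hn le_rfl) (mem_eigenspace_iff.2 hx)

lemma topA : (⨆ n ∈ ({1, 0, 2, 3} : Set ℚ), eigenspace (mW (1, 0, 0, 0)) n) = ⊤ := by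
  rw [eq_top_iff]; rintro ⟨a, b, u, z⟩ -
  have : ((a, b, u, z) : W) = (a, 0, 0, 0) + (0, b, -b / 2, z) + (0, 0, u + b / 2, 0) := by
    simp; ring
  rw [this]
  exact Submodule.add_mem _ (Submodule.add_mem _ (key _ _ 1 (by simp) (by simp [mw]))
    (key _ _ 0 (by simp) (by simp [mw]; ring))) (key _ _ 2 (by simp) (by simp [mw]))

lemma topB : (⨆ n ∈ ({1, 0, 2, 3} : Set ℚ), eigenspace (mW (0, 1, 0, 0)) n) = ⊤ := by
  rw [eq_top_iff]; rintro ⟨a, b, u, z⟩ -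
  have : ((a, b, u, z) : W) = (0, b, 0, 0) + (a, 0, -a / 2, a / 6) + (0, 0, u + a / 2, -u - a / 2)
      + (0, 0, 0, z + u + a / 3) := by
    simp; constructor <;> ring
  rw [this]
  exact Submodule.add_mem _ (Submodule.add_mem _ (Submodule.add_mem _
    (key _ _ 1 (by simp) (by simp [mw]))
    (key _ _ 0 (by simp) (by simp [mw]; constructor <;> ring)))
    (key _ _ 2 (by simp) (by simp [mw]; ring))) (key _ _ 3 (by simp) (by simp [mw]))

def I0 : Submodule ℚ W := LinearMap.ker ((LinearMap.fst ℚ ℚ (ℚ × ℚ)).comp (LinearMap.snd ℚ ℚ _))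

lemma mem_I0 (x : W) : x ∈ I0 ↔ x.2.1 = 0 := Iff.rfl

lemma block_eq : block mW (1, 0, 0, 0) = I0 := by
  apply le_antisymm
  · refine sInf_le ⟨?_, by simp [mem_I0]⟩
    intro u hu v
    rw [mem_I0] at hu
    simp [mem_I0, mW_apply, mw, hu]
  · refine le_sInf ?_
    rintro U ⟨hU, ha⟩ ⟨a, b, u, z⟩ hx
    rw [mem_I0] at hx
    simp only at hx
    subst hx
    have h1 := (hU _ ha (0, 1, 0, 0)).1
    have h2 := (hU _ h1 (0, 1, 0, 0)).1
    have : ((a, 0, u, z) : W) = a • ((1, 0, 0, 0) : W) + (u - 2 * z) • mW (1, 0, 0, 0) (0, 1, 0, 0)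
        + z • mW (mW (1, 0, 0, 0) (0, 1, 0, 0)) (0, 1, 0, 0) := by
      simp [mW_apply, mw]; ring
    rw [this]
    exact U.add_mem (U.add_mem (U.smul_mem _ ha) (U.smul_mem _ h1)) (U.smul_mem _ h2)

lemma dec : Decomposable mW I0 := by
  apply le_antisymm
  · exact sSup_le fun J hJ => hJ.1.le
  · rintro ⟨a, b, u, z⟩ hx
    rw [mem_I0] at hx
    simp only at hx
    subst hx
    let J1 : Submodule ℚ W := I0 ⊓ LinearMap.ker ((LinearMap.snd ℚ ℚ ℚ).comp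
      ((LinearMap.snd ℚ ℚ (ℚ × ℚ)).comp (LinearMap.snd ℚ ℚ _)))
    have m1 : ∀ x : W, x ∈ J1 ↔ x.2.1 = 0 ∧ x.2.2.2 = 0 := fun x => Iff.rfl
    let J2 : Submodule ℚ W := I0 ⊓ (LinearMap.ker (LinearMap.fst ℚ ℚ _) ⊓
      LinearMap.ker ((LinearMap.fst ℚ ℚ ℚ).comp
      ((LinearMap.snd ℚ ℚ (ℚ × ℚ)).comp (LinearMap.snd ℚ ℚ _))))
    have m2 : ∀ x : W, x ∈ J2 ↔ x.2.1 = 0 ∧ x.1 = 0 ∧ x.2.2.1 = 0 := fun x => Iff.rfl
    have : ((a, 0, u, z) : W) = (a, 0, u, 0) + (0, 0, 0, z) := by simp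
    rw [this]
    have hs : ∀ J : Submodule ℚ W, J < I0 → (∀ u ∈ J, ∀ v ∈ I0, mW u v ∈ J ∧ mW v u ∈ J) →
        J ≤ sSup {J | J < I0 ∧ ∀ u ∈ J, ∀ v ∈ I0, mW u v ∈ J ∧ mW v u ∈ J} :=
      fun J h1 h2 => le_sSup ⟨h1, h2⟩
    refine Submodule.add_mem _ (hs J1 ?_ ?_ (by simp [m1])) (hs J2 ?_ ?_ (by simp [m2]))
    · refine lt_of_le_of_ne inf_le_left fun h => ?_
      have : ((0, 0, 0, 1) : W) ∈ J1 := by rw [h]; simp [mem_I0]
      simp [m1] at this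
    · intro x hx y hy
      rw [m1] at hx; rw [mem_I0] at hy
      simp [m1, mW_apply, mw, hx.1, hy]
    · refine lt_of_le_of_ne inf_le_left fun h => ?_
      have : ((1, 0, 0, 0) : W) ∈ J2 := by rw [h]; simp [mem_I0]
      simp [m2] at this
    · intro x hx y hy
      rw [m2] at hx; rw [mem_I0] at hy
      simp [m2, mW_apply, mw, hx.1, hx.2.1, hx.2.2, hy]

theorem result : ∃ (V : Type) (_ : AddCommGroup V) (_ : Module ℚ V) (m : V →ₗ[ℚ] V →ₗ[ℚ] V)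
    (S : Set ℚ) (star : ℚ → ℚ → Set ℚ) (X : Set V), FiniteDimensional ℚ V ∧ S.Finite ∧ 1 ∈ S ∧
    (∀ l k, star l k ⊆ S) ∧ (∀ x y, m x y = m y x) ∧
    (∀ a ∈ X, IsPrimitiveAxis m S star a) ∧ Generates m X ∧
    ∃ a ∈ X, Decomposable m (block m a) := by
  refine ⟨W, inferInstance, inferInstance, mW, {1, 0, 2, 3}, fun _ _ => {1, 0, 2, 3},
    {(1, 0, 0, 0), (0, 1, 0, 0)}, inferInstance, by simp, by simp, fun _ _ => le_rfl, ?_, ?_, ?_,
    (1, 0, 0, 0), by simp, by rw [block_eq]; exact dec⟩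
  · intro x y; simp [mW_apply, mw]; (repeat' constructor) <;> ring
  · rintro a (rfl | rfl)
    · refine ⟨by simp, by simp [mW_apply, mw], topA, fun _ _ _ _ _ _ _ _ => by rw [topA]; trivial, ?_⟩
      ext ⟨a, b, u, z⟩
      rw [mem_eigenspace_iff, Submodule.mem_span_singleton]
      simp [mW_apply, mw]
      intro h1 h2
      constructor <;> intro h <;> linarith
    · refine ⟨by simp, by simp [mW_apply, mw], topB, fun _ _ _ _ _ _ _ _ => by rw [topB]; trivial, ?_⟩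
      ext ⟨a, b, u, z⟩
      rw [mem_eigenspace_iff, Submodule.mem_span_singleton]
      simp [mW_apply, mw]
      intro h1
      constructor <;> rintro ⟨h2, h3⟩ <;> constructor <;> linarith
  · intro U hU hX
    have ha : ((1, 0, 0, 0) : W) ∈ U := hX (by simp)
    have hb : ((0, 1, 0, 0) : W) ∈ U := hX (by simp)
    have h1 := hU _ ha _ hb
    have h2 := hU _ h1 _ hb
    rw [eq_top_iff]; rintro ⟨a, b, u, z⟩ -
    have : ((a, b, u, z) : W) = a • ((1, 0, 0, 0) : W) + b • ((0, 1, 0, 0) : W)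
        + (u - 2 * z) • mW (1, 0, 0, 0) (0, 1, 0, 0)
        + z • mW (mW (1, 0, 0, 0) (0, 1, 0, 0)) (0, 1, 0, 0) := by
      simp [mW_apply, mw]; ring
    rw [this]
    exact U.add_mem (U.add_mem (U.add_mem (U.smul_mem _ ha) (U.smul_mem _ hb)) (U.smul_mem _ h1))
      (U.smul_mem _ h2)

end Pool.Agent.Results.MP_89b943_al.Block
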